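import Pool.Agent.Helper17.SA.St2

/-!
# Project SA (MP_21f9f3_al), module SY2: bounds for 2, 3, 5, 7 in symmetric groups
-/

set_option autoImplicit false

open Equiv Pool.Agent.Helper17.SA

namespace Pool.Agent.Helper60.SA

theorem sy_odd (hBW : StBW) (p N m : ℕ) (R : ℕ → ℕ → ℕ) (hp : p.Prime) (hG : Good p N R)
    (hN : m / p ≤ N) (H : Subgroup (Perm (Fin m))) (hH : IsPGroup p H) :
    bad H ≤ W R p m / (p - 1) := by
  have h := hBW.1 p N m R H hp hG hN hH
  have h2 := hp.two_le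
  rw [Nat.le_div_iff_mul_le (by omega)]
  rw [mul_comm]
  exact h

theorem sy_cert (hSYL : StSYL) (hCM : StCM) (m v : ℕ)
    (hm : m = 5 ∨ m = 6 ∨ m = 9 ∨ m = 10 ∨ m = 12) (hv : padicValNat 2 m.factorial = v)
    (P : Sylow 2 (Perm (Fin m))) :
    need m * 4 ^ v + bad (P : Subgroup (Perm (Fin m))) ≤ m.factorial := by
  obtain ⟨_, h2, h3⟩ := hSYL m P
  have h := hCM m hm
  rw [h2, hv, ← h3] at h
  have e : (2 ^ v) ^ 2 = 4 ^ v := by
    rw [← pow_mul, mul_comm, pow_mul]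
    norm_num
  rw [e] at h
  exact h

theorem sy_second (hUB2 : StUB2) (hTRN : StTRN) (hCNT : StCNT) (hGDX : StGDX) (m : ℕ)
    (hm : 4 ≤ m) (hm2 : m / 2 ≤ 10) (P : Sylow 2 (Perm (Fin m))) :
    bad (P : Subgroup (Perm (Fin m))) + (m / 2 * (m / 2 - 1)) ^ 2 * 4 * (m - 4).factorial ≤
      W A2 2 m := by
  have h := hUB2 m (P : Subgroup (Perm (Fin m))) hm P.2
  have ht := hTRN m P
  have h1 : (m / 2 * (m / 2 - 1)) ^ 2 * 4 * (m - 4).factorial ≤
      (cc (P : Subgroup (Perm (Fin m))) 2 1 * (cc (P : Subgroup (Perm (Fin m))) 2 1 - 1)) ^ 2 * 4 *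
        (m - 4).factorial := by
    have : m / 2 - 1 ≤ cc (P : Subgroup (Perm (Fin m))) 2 1 - 1 := by omega
    gcongr
  have h2 : ∑ k ∈ Finset.Icc 1 (m / 2), (cc (P : Subgroup (Perm (Fin m))) 2 k) ^ 2 *
      (m - 2 * k).factorial * 2 ^ k * k.factorial ≤ W A2 2 m := by
    unfold W
    apply Finset.sum_le_sum
    intro k hk
    have hk2 := (Finset.mem_Icc.1 hk).2
    have hc := hCNT 2 10 A2 Nat.prime_two hGDX.1 (Fin m) (P : Subgroup (Perm (Fin m))) P.2
      (by rw [Fintype.card_fin]; exact hm2) k (by rw [Fintype.card_fin]; exact hk2)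
    rw [Fintype.card_fin] at hc
    gcongr
  omega

theorem pSY2 : StBW → StUB2 → StTRN → StCNT → StGDT → StGDX → StSYL → StCM → StE8 → StAN2 →
    StAN3 → StA57 → StNUM → StNSM → StS6 → StSY2 := by
  intro hBW hUB2 hTRN hCNT hGDT hGDX hSYL hCM hE8 hAN2 hAN3 hA57 hNUM hNSM hS6 m hm
  obtain ⟨n1, n2, ⟨o5, o8, o9, o10, o12⟩, n6, _, ⟨v5, v6, v9, v10, v12⟩⟩ := hNSM
  have H5 : ∀ H : Subgroup (Perm (Fin m)), IsPGroup 5 H → bad H ≤ W (RT 5) 5 m / 4 :=
    fun H hH => sy_odd hBW 5 (m / 5) m (RT 5) Nat.prime_five (hGDT 5 _ Nat.prime_five) le_rfl H hH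
  have p7 : Nat.Prime 7 := by norm_num
  have H7 : ∀ H : Subgroup (Perm (Fin m)), IsPGroup 7 H → bad H ≤ W (RT 7) 7 m / 6 :=
    fun H hH => sy_odd hBW 7 (m / 7) m (RT 7) p7 (hGDT 7 _ p7) le_rfl H hH
  have H3 : m ≤ 21 → ∀ H : Subgroup (Perm (Fin m)), IsPGroup 3 H → bad H ≤ W A3 3 m / 2 :=
    fun h21 H hH => sy_odd hBW 3 7 m A3 Nat.prime_three hGDX.2 (by omega) H hH
  have H3' : ∀ H : Subgroup (Perm (Fin m)), IsPGroup 3 H → bad H ≤ W (RT 3) 3 m / 2 :=
    fun H hH => sy_odd hBW 3 (m / 3) m (RT 3) Nat.prime_three (hGDT 3 _ Nat.prime_three) le_rfl H hH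
  have H2 : m ≤ 21 → ∀ P : Sylow 2 (Perm (Fin m)),
      bad (P : Subgroup (Perm (Fin m))) ≤ W A2 2 m := by
    intro h21 P
    have := hBW.1 2 10 m A2 (P : Subgroup (Perm (Fin m))) Nat.prime_two hGDX.1 (by omega) P.2
    omega
  have H2' : ∀ P : Sylow 2 (Perm (Fin m)),
      bad (P : Subgroup (Perm (Fin m))) ≤ W (RT 2) 2 m := by
    intro P
    have := hBW.1 2 (m / 2) m (RT 2) (P : Subgroup (Perm (Fin m))) Nat.prime_two
      (hGDT 2 _ Nat.prime_two) le_rfl P.2
    omega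
  by_cases hc : m = 5 ∨ m = 9 ∨ m = 10 ∨ m = 12
  · -- certificates
    obtain ⟨v, hv, ho⟩ : ∃ v, padicValNat 2 m.factorial = v ∧ odds m < need m * 4 ^ v := by
      rcases hc with rfl | rfl | rfl | rfl
      · refine ⟨3, v5, ?_⟩
        have : need 5 = 1 := by decide
        rw [this, one_mul]
        exact o5
      · refine ⟨7, v9, ?_⟩
        have : need 9 = 7 := by decide
        rw [this]
        exact o9
      · refine ⟨8, v10, ?_⟩
        have : need 10 = 7 := by decide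
        rw [this]
        exact o10
      · refine ⟨10, v12, ?_⟩
        have : need 12 = 41 := by decide
        rw [this]
        exact o12
    have hQ := fun P => sy_cert hSYL hCM m v (by omega) hv P
    obtain ⟨P0⟩ : Nonempty (Sylow 2 (Perm (Fin m))) := inferInstance
    have hle : need m * 4 ^ v ≤ m.factorial := le_trans (Nat.le_add_right _ _) (hQ P0)
    unfold odds at ho
    refine ⟨m.factorial - need m * 4 ^ v, W A3 3 m / 2, W (RT 5) 5 m / 4, W (RT 7) 7 m / 6,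
      ?_, ?_, H3 (by omega), H5, H7⟩
    · omega
    · intro P _
      have := hQ P
      omega
  by_cases h6 : m = 6
  · subst h6
    have hQ := fun P => sy_cert hSYL hCM 6 4 (by omega) v6 P
    have e1 : need 6 = 1 := by decide
    have e2 : Nat.factorial 6 = 720 := by decide
    refine ⟨720 - 4 ^ 4, 72, W (RT 5) 5 6 / 4, W (RT 7) 7 6 / 6, ?_, ?_, hS6, H5, H7⟩
    · have h := n6
      rw [e2] at h ⊢
      omega
    · intro P _
      have := hQ P
      rw [e1, e2] at this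
      omega
  by_cases h8 : m = 8
  · subst h8
    have e2 : Nat.factorial 8 = 40320 := by decide
    have ho := o8
    unfold odds at ho
    rw [e2] at ho
    refine ⟨40320 - 16384, W A3 3 8 / 2, W (RT 5) 5 8 / 4, W (RT 7) 7 8 / 6, ?_, ?_,
      H3 (by omega), H5, H7⟩
    · rw [e2]
      omega
    · intro P hP
      have := hE8.1 P hP
      omega
  by_cases hs : m = 14 ∨ m = 16
  · have hQ := fun P => sy_second hUB2 hTRN hCNT hGDX m (by omega) (by omega) P
    have hn := n2 m hs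
    unfold odds at hn
    obtain ⟨P0⟩ : Nonempty (Sylow 2 (Perm (Fin m))) := inferInstance
    have hle := le_trans (Nat.le_add_left _ _) (hQ P0)
    refine ⟨W A2 2 m - (m / 2 * (m / 2 - 1)) ^ 2 * 4 * (m - 4).factorial, W A3 3 m / 2,
      W (RT 5) 5 m / 4, W (RT 7) 7 m / 6, ?_, ?_, H3 (by omega), H5, H7⟩
    · generalize (m / 2 * (m / 2 - 1)) ^ 2 * 4 * (m - 4).factorial = y at *
      omega
    · intro P _
      have := hQ P
      generalize (m / 2 * (m / 2 - 1)) ^ 2 * 4 * (m - 4).factorial = y at *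
      omega
  by_cases h21 : m ≤ 21
  · have hn := n1 m (by omega)
    unfold odds at hn
    refine ⟨W A2 2 m, W A3 3 m / 2, W (RT 5) 5 m / 4, W (RT 7) 7 m / 6, ?_, fun P _ => H2 h21 P,
      H3 h21, H5, H7⟩
    omega
  refine ⟨W (RT 2) 2 m, W (RT 3) 3 m / 2, W (RT 5) 5 m / 4, W (RT 7) 7 m / 6, ?_,
    fun P _ => H2' P, H3', H5, H7⟩
  by_cases h150 : m < 150
  · exact hNUM m (by omega) h150
  · have h150' : 150 ≤ m := by omega
    have a2 := hAN2 m h150'
    have a3 := hAN3 m h150'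
    have a5 := hA57.1 m h150'
    have a7 := hA57.2.1 m
    have hpos := m.factorial_pos
    omega

end Pool.Agent.Helper60.SA
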