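import Pool.Agent.Helper17.SA.St3
import Pool.Agent.Helper64.SA.M_ISO
import Pool.Agent.Helper88.SL.Chain

/-!
# Project SA (MP_21f9f3_al), module CH: series
-/

set_option autoImplicit false

open Equiv Pool.Agent.Helper17.SA
open scoped Pointwise

namespace Pool.Agent.Helper60.SA

open Pool.Agent.Helper64.SA in
theorem sync_iso {G H : Type} [Group G] [Group H] [Finite G] [Finite H] (e : G ≃* H) {ι : Type}
    (p : ι → ℕ) (hp : ∀ i, (p i).Prime) (hG : SyncFor G p) : SyncFor H p := by
  intro P
  obtain ⟨x, hx⟩ := hG (fun i => by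
    haveI : Fact (p i).Prime := ⟨hp i⟩
    exact pull e (p i) (P i))
  refine ⟨e x, fun i => ?_⟩
  haveI : Fact (p i).Prime := ⟨hp i⟩
  ext y
  have h1 := hx i
  have h2 : e.symm y ∈ ((pull e (p i) (P i) : Subgroup G) ⊓
      MulAut.conj x⁻¹ • (pull e (p i) (P i) : Subgroup G)) ↔
      e.symm y ∈ (⨅ Q : Sylow (p i) G, (Q : Subgroup G)) := by
    rw [h1]
  rw [Subgroup.mem_inf, mem_conj, mem_pull, mem_pull, mem_iInf_iff e] at h2
  simp only [map_mul, map_inv, MulEquiv.apply_symm_apply] at h2
  rw [Subgroup.mem_inf, mem_conj]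
  exact h2

theorem star_elem (H : Type) [Group H] (q : ℕ) (hs : StarAt H q) :
    ∃ P Q : Sylow q H, ∀ y ∈ P, y ∈ Q → ∀ R : Sylow q H, y ∈ R := by
  obtain ⟨P, Q, h⟩ := hs
  exact ⟨P, Q, fun y hy hy' R => Subgroup.mem_iInf.mp (h ⟨hy, hy'⟩) R⟩

theorem pCH : StLFT → StCH := by
  intro hLFT G _ _ k N _ h0 hle ι _ p hp hinj hstep htop
  have key : ∀ m j, j + m = k → SyncFor (G ⧸ N j) p := by
    intro m
    induction m with
    | zero =>
      intro j hj
      rw [add_zero] at hj
      subst hj
      exact htop
    | succ m ih =>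
      intro j hj
      have hjk : j < k := by omega
      have hle' := hle j hjk
      have hnext := ih (j + 1) (by omega)
      rcases hstep j hjk with ⟨hnil, hst⟩ | ⟨Ω, _, S, _, hsim, hnc, hamp, hiso⟩
      · intro P
        rw [Pool.Agent.Helper88.SL.sync_iff]
        let f : G ⧸ N j →* G ⧸ N (j + 1) :=
          QuotientGroup.map (N j) (N (j + 1)) (MonoidHom.id G) hle'
        have hf : Function.Surjective f := by
          intro y
          obtain ⟨g, rfl⟩ := QuotientGroup.mk'_surjective (N (j + 1)) y
          exact ⟨QuotientGroup.mk' (N j) g, rfl⟩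
        have hker : f.ker = (N (j + 1)).map (QuotientGroup.mk' (N j)) := by
          ext y
          obtain ⟨g, rfl⟩ := QuotientGroup.mk'_surjective (N j) y
          rw [MonoidHom.mem_ker]
          constructor
          · intro h
            exact ⟨g, (QuotientGroup.eq_one_iff g).mp h, rfl⟩
          · rintro ⟨g', hg', h⟩
            rw [← h]
            exact (QuotientGroup.eq_one_iff g').mpr hg'
        have hnil' : Group.IsNilpotent f.ker := by
          rw [hker]
          exact hnil
        exact Pool.Agent.Helper88.SL.lift_one f hf hnil' p hp hinj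
          (fun i => star_elem _ _ (hst i))
          (fun P => (Pool.Agent.Helper88.SL.sync_iff p P).mp (hnext P)) P
      · have hn : ((N (j + 1)).map (QuotientGroup.mk' (N j))).Normal := inferInstance
        refine hLFT (G ⧸ N j) ((N (j + 1)).map (QuotientGroup.mk' (N j))) Ω S hsim hnc hamp hiso
          ι p hp hinj ?_
        exact sync_iso (QuotientGroup.quotientQuotientEquivQuotient (N j) (N (j + 1)) hle').symm
          p hp hnext
  have h1 := key k 0 (Nat.zero_add k)
  exact sync_iso ((QuotientGroup.quotientMulEquivOfEq h0).trans QuotientGroup.quotientBot) p hp h1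

end Pool.Agent.Helper60.SA
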